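import Pool.Agent.Helper22.TW.Stmts

/-!
# PAR: the parity lemma (module of MP_8312c9_nt)
-/

set_option autoImplicit false

namespace Pool.Agent.Helper22.TW

open Pool.Agent.Helper14.BSC Polynomial

/-! ### norms -/

theorem par_norm_eq {p : ℕ} [Fact p.Prime] {a b : ℂ_[p]} (h : ‖a‖ < ‖b‖) : ‖a + b‖ = ‖b‖ := by
  rw [IsUltrametricDist.norm_add_eq_max_of_norm_ne_norm (ne_of_lt h)]
  exact max_eq_right h.le

theorem par_near {F : Type} [Field F] {p : ℕ} [Fact p.Prime] (σ₀ : F →+* ℂ_[p]) (v : F) (A : F[X])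
    (hA : A.eval v ≠ 0) : ∃ ε : ℝ, 0 < ε ∧ ∀ τ : ℂ_[p], ‖τ - σ₀ v‖ < ε →
      ‖A.eval₂ σ₀ τ‖ = ‖σ₀ (A.eval v)‖ := by
  have hc : Continuous fun x : ℂ_[p] => A.eval₂ σ₀ x := by
    have : (fun x : ℂ_[p] => A.eval₂ σ₀ x) = fun x => (A.map σ₀).eval x := by
      funext x
      rw [eval_map]
    rw [this]
    exact (A.map σ₀).continuous
  have hv : A.eval₂ σ₀ (σ₀ v) = σ₀ (A.eval v) := by
    rw [eval₂_at_apply]
  have hpos : 0 < ‖σ₀ (A.eval v)‖ := norm_pos_iff.2 ((map_ne_zero σ₀).2 hA)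
  obtain ⟨ε, hε, h⟩ := Metric.continuous_iff.1 hc (σ₀ v) _ hpos
  refine ⟨ε, hε, fun τ hτ => ?_⟩
  have h1 := h τ (by rw [dist_eq_norm]; exact hτ)
  rw [dist_eq_norm, hv] at h1
  have h2 := par_norm_eq h1
  rwa [sub_add_cancel] at h2

theorem par_zpow_inj {r : ℝ} (h0 : 0 < r) (h1 : r < 1) {a b : ℤ} (h : r ^ a = r ^ b) : a = b :=
  zpow_right_injective₀ h0 (ne_of_lt h1) h

/-! ### the valuation argument -/

theorem par_core {k Ω : Type} [Field k] [Field Ω] [Algebra k Ω] (D : Sec k Ω)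
    (p : ℕ) [Fact p.Prime] (σ : k →+* ℂ_[p]) (E₀ : IntermediateField ℚ_[p] ℂ_[p])
    (P : Place D p σ)
    (hval : ∀ x : P.C, P.φ x ∈ E₀)
    (hsq : ∀ x : P.C, P.φ x ≠ 0 → ∀ (c : k) (g : LL D),
      (x : LL D) = algebraMap k (LL D) c * g ^ 2 → ∃ w ∈ E₀, w ≠ 0 ∧ σ c = P.φ x * w ^ 2)
    (ϖ : ℂ_[p]) (h0 : 0 < ‖ϖ‖) (h1 : ‖ϖ‖ < 1)
    (hE : ∀ z ∈ E₀, z ≠ 0 → ∃ j : ℤ, ‖z‖ = ‖ϖ‖ ^ j)
    (X Y Z : LL D) (c ei ej el : k) (hZ : Z ≠ 0)
    (hX : X - algebraMap k (LL D) ei = algebraMap k (LL D) c * Z ^ 2)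
    (hY : Y ^ 2 = (X - algebraMap k (LL D) ei) * (X - algebraMap k (LL D) ej) *
      (X - algebraMap k (LL D) el))
    (m : ℤ) (hm : Odd m) (hc : ‖σ c‖ = ‖ϖ‖ ^ m)
    (n : ℤ) (hn : Even n) (hj : ‖σ ei - σ ej‖ = ‖ϖ‖ ^ n) (hl : ‖σ ei - σ el‖ = ‖ϖ‖ ^ n) :
    False := by
  have hc0 : σ c ≠ 0 := by
    rw [← norm_pos_iff, hc]
    exact zpow_pos h0 m
  have hcc : c ≠ 0 := fun h => hc0 (by rw [h, map_zero])
  have hcL : algebraMap k (LL D) c ≠ 0 := (_root_.map_ne_zero _).2 hcc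
  have hσij : σ ei - σ ej ≠ 0 := by
    rw [← norm_pos_iff, hj]
    exact zpow_pos h0 n
  have hσil : σ ei - σ el ≠ 0 := by
    rw [← norm_pos_iff, hl]
    exact zpow_pos h0 n
  have hXi : X - algebraMap k (LL D) ei ≠ 0 := by
    rw [hX]
    exact mul_ne_zero hcL (pow_ne_zero 2 hZ)
  obtain ⟨hei, hei'⟩ := P.base ei
  obtain ⟨hej, hej'⟩ := P.base ej
  obtain ⟨hel, hel'⟩ := P.base el
  by_cases hXC : X ∈ P.C
  · -- X is finite
    set ξ : ℂ_[p] := P.φ ⟨X, hXC⟩ with hξ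
    set Xc : P.C := ⟨X, hXC⟩ with hXc
    set Ei : P.C := ⟨algebraMap k (LL D) ei, hei⟩ with hEi
    set Ej : P.C := ⟨algebraMap k (LL D) ej, hej⟩ with hEj
    set El : P.C := ⟨algebraMap k (LL D) el, hel⟩ with hEl
    by_cases hξi : ξ = σ ei
    · -- U = (X - ej)(X - el)
      have hU : P.φ ((Xc - Ej) * (Xc - El)) = (σ ei - σ ej) * (σ ei - σ el) := by
        rw [map_mul, map_sub, map_sub, hej', hel', ← hξi]
      have hU0 : P.φ ((Xc - Ej) * (Xc - El)) ≠ 0 := by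
        rw [hU]
        exact mul_ne_zero hσij hσil
      have hrep : (((Xc - Ej) * (Xc - El) : P.C) : LL D) =
          algebraMap k (LL D) c⁻¹ * (Y / Z) ^ 2 := by
        have e1 : (((Xc - Ej) * (Xc - El) : P.C) : LL D) =
            (X - algebraMap k (LL D) ej) * (X - algebraMap k (LL D) el) := rfl
        rw [e1, map_inv₀, div_pow, hY, hX]
        field_simp
      obtain ⟨w, hw, hw0, hww⟩ := hsq _ hU0 _ _ hrep
      obtain ⟨a, ha⟩ := hE w hw hw0
      have h3 : ‖σ c⁻¹‖ = ‖ϖ‖ ^ (2 * n + 2 * a) := by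
        rw [hww, hU, norm_mul, norm_mul, norm_pow, hj, hl, ha, two_mul n, two_mul a,
          zpow_add₀ h0.ne', zpow_add₀ h0.ne', zpow_add₀ h0.ne']
        ring
      rw [map_inv₀, norm_inv, hc, ← zpow_neg] at h3
      have h4 := par_zpow_inj h0 h1 h3
      obtain ⟨m', hm'⟩ := hm
      omega
    · -- A = |ξ - σ ei|
      have hA0 : P.φ (Xc - Ei) ≠ 0 := by
        rw [map_sub, hei']
        exact sub_ne_zero.2 hξi
      have hAe : P.φ (Xc - Ei) = ξ - σ ei := by rw [map_sub, hei']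
      obtain ⟨w, hw, hw0, hww⟩ := hsq (Xc - Ei) hA0 c Z hX
      obtain ⟨a, ha⟩ := hE w hw hw0
      obtain ⟨b, hb⟩ := hE _ (hval (Xc - Ei)) hA0
      have h3 : ‖σ c‖ = ‖ϖ‖ ^ (b + 2 * a) := by
        rw [hww, norm_mul, norm_pow, hb, ha, two_mul a, zpow_add₀ h0.ne', zpow_add₀ h0.ne']
        ring
      rw [hc] at h3
      have h4 := par_zpow_inj h0 h1 h3
      -- Y is finite
      have hYsq : Y ^ 2 ∈ P.C := by
        rw [hY]
        exact mul_mem (mul_mem (sub_mem hXC hei) (sub_mem hXC hej)) (sub_mem hXC hel)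
      have hYC : Y ∈ P.C := by
        rcases P.C.mem_or_inv_mem Y with h | h
        · exact h
        · by_cases hY0 : Y = 0
          · rw [hY0]
            exact zero_mem _
          · have : Y = Y ^ 2 * Y⁻¹ := by field_simp
            rw [this]
            exact mul_mem hYsq h
      have hYφ : P.φ ⟨Y, hYC⟩ ^ 2 = (ξ - σ ei) * (ξ - σ ej) * (ξ - σ el) := by
        rw [← map_pow]
        have e1 : (⟨Y, hYC⟩ : P.C) ^ 2 = (Xc - Ei) * (Xc - Ej) * (Xc - El) := Subtype.ext hY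
        rw [e1, map_mul, map_mul, map_sub, map_sub, map_sub, hei', hej', hel']
      rw [hAe] at hb
      have hij : ξ - σ ej = (ξ - σ ei) + (σ ei - σ ej) := by ring
      have hil : ξ - σ el = (ξ - σ ei) + (σ ei - σ el) := by ring
      have key : ∃ r : ℤ, ‖P.φ ⟨Y, hYC⟩‖ ^ 2 = ‖ϖ‖ ^ r ∧ Odd r := by
        rcases lt_trichotomy ‖ξ - σ ei‖ (‖ϖ‖ ^ n) with hlt | heq | hgt
        · refine ⟨b + 2 * n, ?_, ?_⟩
          · have e1 : ‖ξ - σ ej‖ = ‖ϖ‖ ^ n := by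
              rw [hij, par_norm_eq (by rw [hj]; exact hlt), hj]
            have e2 : ‖ξ - σ el‖ = ‖ϖ‖ ^ n := by
              rw [hil, par_norm_eq (by rw [hl]; exact hlt), hl]
            rw [← norm_pow, hYφ, norm_mul, norm_mul, e1, e2, hb, two_mul n, zpow_add₀ h0.ne',
              zpow_add₀ h0.ne']
            ring
          · obtain ⟨m', hm'⟩ := hm
            exact ⟨m' - a + n, by omega⟩
        · exfalso
          rw [hb] at heq
          have h5 := par_zpow_inj h0 h1 heq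
          obtain ⟨m', hm'⟩ := hm
          obtain ⟨n', hn'⟩ := hn
          omega
        · refine ⟨b + b + b, ?_, ?_⟩
          · have e1 : ‖ξ - σ ej‖ = ‖ϖ‖ ^ b := by
              rw [hij, add_comm, par_norm_eq (by rw [hj]; exact hgt), hb]
            have e2 : ‖ξ - σ el‖ = ‖ϖ‖ ^ b := by
              rw [hil, add_comm, par_norm_eq (by rw [hl]; exact hgt), hb]
            rw [← norm_pow, hYφ, norm_mul, norm_mul, e1, e2, hb, zpow_add₀ h0.ne',
              zpow_add₀ h0.ne']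
          · obtain ⟨m', hm'⟩ := hm
            exact ⟨m' - a + b, by omega⟩
      obtain ⟨r, hr, hro⟩ := key
      have hYne : P.φ ⟨Y, hYC⟩ ≠ 0 := by
        intro h
        rw [h, norm_zero] at hr
        have := zpow_pos h0 r
        rw [← hr] at this
        norm_num at this
      obtain ⟨s, hs⟩ := hE _ (hval ⟨Y, hYC⟩) hYne
      rw [hs, pow_two, ← zpow_add₀ h0.ne'] at hr
      have h5 := par_zpow_inj h0 h1 hr
      obtain ⟨r', hr'⟩ := hro
      omega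
  · -- X is infinite
    have hXiC : X - algebraMap k (LL D) ei ∉ P.C := by
      intro h
      apply hXC
      have := add_mem h hei
      rwa [sub_add_cancel] at this
    have hinv : (X - algebraMap k (LL D) ei)⁻¹ ∈ P.C := by
      rcases P.C.mem_or_inv_mem (X - algebraMap k (LL D) ei) with h | h
      · exact absurd h hXiC
      · exact h
    set I : P.C := ⟨(X - algebraMap k (LL D) ei)⁻¹, hinv⟩ with hI
    have hI0 : P.φ I = 0 := by
      rw [P.ker]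
      right
      rw [hI]
      simpa using hXiC
    set Ei : P.C := ⟨algebraMap k (LL D) ei, hei⟩ with hEi
    set Ej : P.C := ⟨algebraMap k (LL D) ej, hej⟩ with hEj
    set El : P.C := ⟨algebraMap k (LL D) el, hel⟩ with hEl
    have hU : P.φ ((1 + (Ei - Ej) * I) * (1 + (Ei - El) * I)) = 1 := by
      rw [map_mul, map_add, map_add, map_mul, map_mul, hI0, map_one]
      ring
    have hU0 : P.φ ((1 + (Ei - Ej) * I) * (1 + (Ei - El) * I)) ≠ 0 := by
      rw [hU]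
      exact one_ne_zero
    have hrep : (((1 + (Ei - Ej) * I) * (1 + (Ei - El) * I) : P.C) : LL D) =
        algebraMap k (LL D) c⁻¹ * (Y / ((X - algebraMap k (LL D) ei) * Z)) ^ 2 := by
      have e1 : (((1 + (Ei - Ej) * I) * (1 + (Ei - El) * I) : P.C) : LL D) =
          (1 + (algebraMap k (LL D) ei - algebraMap k (LL D) ej) *
            (X - algebraMap k (LL D) ei)⁻¹) *
          (1 + (algebraMap k (LL D) ei - algebraMap k (LL D) el) *
            (X - algebraMap k (LL D) ei)⁻¹) := rfl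
      have e2 : Z ^ 2 = (X - algebraMap k (LL D) ei) * (algebraMap k (LL D) c)⁻¹ := by
        rw [hX]
        field_simp
      rw [e1, map_inv₀, div_pow, hY, mul_pow, e2]
      field_simp
      ring
    obtain ⟨w, hw, hw0, hww⟩ := hsq _ hU0 _ _ hrep
    obtain ⟨a, ha⟩ := hE w hw hw0
    have h3 : ‖σ c⁻¹‖ = ‖ϖ‖ ^ (2 * a) := by
      rw [hww, hU, one_mul, norm_pow, ha, two_mul a, zpow_add₀ h0.ne']
      ring
    rw [map_inv₀, norm_inv, hc, ← zpow_neg] at h3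
    have h4 := par_zpow_inj h0 h1 h3
    obtain ⟨m', hm'⟩ := hm
    omega

/-! ### base change -/

/-- evaluation commutes with the base change -/
theorem par_ev {F k Ω : Type} [Field F] [Field k] [Field Ω] [Algebra F Ω] [Algebra k Ω]
    {t : k} {D : Sec k Ω} (B : Ext (F := F) t D) (A : F[X]) (a : B.F') :
    algebraMap B.F' Ω ((A.map B.i).eval a) = aeval (algebraMap B.F' Ω a) A := by
  rw [eval_map, hom_eval₂, aeval_def]
  congr 1
  exact RingHom.ext B.hi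

theorem par_ev' {F k Ω : Type} [Field F] [Field k] [Field Ω] [Algebra F Ω] [Algebra k Ω]
    {t : k} {D : Sec k Ω} (B : Ext (F := F) t D) (A : F[X]) :
    algebraMap B.k' Ω (aeval B.t' (A.map B.i)) = aeval (algebraMap k Ω t) A := by
  rw [← aeval_algebraMap_apply, ← B.ht, B.hj, aeval_def, eval₂_map, aeval_def]
  congr 1
  exact RingHom.ext B.hi

/-- PAR -/
theorem st_PAR (hLEV : ST_LEV) (hBC : ST_BC) (hEMBU : ST_EMBU) (hRAM : ST_RAM2) (hTRA : ST_TRA)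
    (hEXK : ST_EXK) (hRK : ST_RK) (hPL : ST_PL) : ST_PAR := by
  classical
  intro F k Ω _ _ _ _ _ _ _ _ _ t ht hfg D e x y z hx hy hz hz0 hE i R hR v hv
  by_contra hcon
  push Not at hcon
  obtain ⟨j, l, hij, hil, hjl, hprod⟩ : ∃ j l : Fin 3, j ≠ i ∧ l ≠ i ∧ j ≠ l ∧
      ∀ f : Fin 3 → Ω, f 0 * f 1 * f 2 = f i * f j * f l := by
    fin_cases i
    · exact ⟨1, 2, by decide, by decide, by decide, fun f => rfl⟩
    · exact ⟨0, 2, by decide, by decide, by decide, fun f => by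
        show f 0 * f 1 * f 2 = f 1 * f 0 * f 2
        ring⟩
    · exact ⟨0, 1, by decide, by decide, by decide, fun f => by
        show f 0 * f 1 * f 2 = f 2 * f 0 * f 1
        ring⟩
  have hvj := hcon j hij
  have hvl := hcon l hil
  obtain ⟨Sx, hSx, hSx'⟩ := hLEV F k Ω D x hx
  obtain ⟨Sy, hSy, hSy'⟩ := hLEV F k Ω D y hy
  obtain ⟨Sz, hSz, hSz'⟩ := hLEV F k Ω D z hz
  set S : Finset Ω := Sx ∪ Sy ∪ Sz ∪ R.image (fun a : Acl F Ω => (a : Ω)) with hS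
  have hSalg : ∀ a ∈ S, IsAlgebraic F a := by
    intro a ha
    simp only [hS, Finset.mem_union, Finset.mem_image] at ha
    rcases ha with ((ha | ha) | ha) | ⟨b, hb, rfl⟩
    · exact hSx a ha
    · exact hSy a ha
    · exact hSz a ha
    · exact (mem_algebraicClosure_iff.1 b.2)
  obtain ⟨B, hB1, hB2⟩ := hBC F k Ω t ht hfg D S hSalg
  have hX0 : x ∈ LL B.D' := by
    intro g _
    refine hB2 x (fun g hg => hSx' g fun a ha => hg a ?_) g
    simp [hS, ha]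
  have hY0 : y ∈ LL B.D' := by
    intro g _
    refine hB2 y (fun g hg => hSy' g fun a ha => hg a ?_) g
    simp [hS, ha]
  have hZ0 : z ∈ LL B.D' := by
    intro g _
    refine hB2 z (fun g hg => hSz' g fun a ha => hg a ?_) g
    simp [hS, ha]
  have hpre : ∀ r ∈ R, ∃ r' : B.F', algebraMap B.F' Ω r' = (r : Ω) := by
    intro r hr
    apply hB1
    simp only [hS, Finset.mem_union, Finset.mem_image]
    exact Or.inr ⟨r, hr, rfl⟩
  choose! ρ hρ using hpre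
  set v' : B.F' := ρ v with hv'
  have hv'e : algebraMap B.F' Ω v' = (v : Ω) := hρ v hv
  -- the values at v
  set uj : B.F' := ((e i - e j).map B.i).eval v' with huj
  set ul : B.F' := ((e i - e l).map B.i).eval v' with hul
  have huj0 : uj ≠ 0 := by
    intro h
    apply hvj
    rw [← hv'e, ← par_ev, ← huj, h, map_zero]
  have hul0 : ul ≠ 0 := by
    intro h
    apply hvl
    rw [← hv'e, ← par_ev, ← hul, h, map_zero]
  obtain ⟨p, hp, σ₀, E, hfin, hσE, hunit⟩ := hEMBU B.F' B.fg (uj / ul) (div_ne_zero huj0 hul0)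
  obtain ⟨E₁, hfin₁, hle, ϖ, hϖ, h0, h1, hE₁, hE₂⟩ := hRAM p E hfin
  have hγ : ‖σ₀ uj‖ = ‖σ₀ ul‖ := by
    have hne : ‖σ₀ ul‖ ≠ 0 := norm_ne_zero_iff.2 ((_root_.map_ne_zero σ₀).2 hul0)
    rw [map_div₀, norm_div, div_eq_one_iff_eq hne] at hunit
    exact hunit
  obtain ⟨n₀, hn₀⟩ := hE₂ (σ₀ uj) (hσE uj) ((_root_.map_ne_zero σ₀).2 huj0)
  -- the product over the other points
  set H : B.F'[X] := ∏ r ∈ R.erase v, (X - C (ρ r)) with hH
  have hHv : H.eval v' ≠ 0 := by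
    rw [hH, eval_prod, Finset.prod_ne_zero_iff]
    intro r hr
    rw [eval_sub, eval_X, eval_C]
    intro h
    have hr' := Finset.mem_erase.1 hr
    apply hr'.1
    have h2 : algebraMap B.F' Ω v' = algebraMap B.F' Ω (ρ r) := by rw [sub_eq_zero.1 h]
    rw [hv'e, hρ r hr'.2] at h2
    exact (Subtype.ext h2).symm
  obtain ⟨n₁, hn₁⟩ := hE₂ (σ₀ (H.eval v')) (hσE _) ((_root_.map_ne_zero σ₀).2 hHv)
  obtain ⟨ε₁, hε₁, hA₁⟩ := par_near σ₀ v' H hHv
  obtain ⟨ε₂, hε₂, hA₂⟩ := par_near σ₀ v' ((e i - e j).map B.i) huj0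
  obtain ⟨ε₃, hε₃, hA₃⟩ := par_near σ₀ v' ((e i - e l).map B.i) hul0
  obtain ⟨m, hm⟩ : ∃ m : ℕ, ‖ϖ‖ ^ m < min ε₁ (min ε₂ ε₃) :=
    exists_pow_lt_of_lt_one (lt_min hε₁ (lt_min hε₂ hε₃)) h1
  have hϖ0 : ϖ ≠ 0 := norm_pos_iff.1 h0
  obtain ⟨τ, hτE, -, hτ, hτt⟩ := hTRA B.F' B.fg p σ₀ E₁ (σ₀ v') (ϖ ^ (2 * m + 1)) (hle (hσE v'))
    (pow_mem hϖ _) (pow_ne_zero _ hϖ0) ∅ Set.countable_empty
  have hτlt : ‖τ - σ₀ v'‖ < min ε₁ (min ε₂ ε₃) := by
    rw [hτ, norm_pow]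
    refine lt_of_le_of_lt (pow_le_pow_of_le_one h0.le h1.le ?_) hm
    omega
  obtain ⟨hX1, -, hX3⟩ := hEXK B.F' B.k' B.t' B.gen p E₁
  obtain ⟨σ, hσ, hσt⟩ := hX3 σ₀ τ hτt
  have hσE₁ : ∀ a, σ a ∈ E₁ := hX1 σ (fun a => by rw [hσ]; exact hle (hσE a)) (by rw [hσt]; exact hτE)
  have hσa : ∀ A : B.F'[X], σ (aeval B.t' A) = A.eval₂ σ₀ τ := by
    intro A
    rw [aeval_def, hom_eval₂, hσt]
    congr 1
    exact RingHom.ext hσ
  obtain ⟨P, -⟩ := hRK B.k' Ω B.D' p σ E₁ hfin₁ hσE₁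
  obtain ⟨hval, hkum⟩ := hPL B.k' Ω B.D' p σ E₁ hfin₁ hσE₁ P
  have hsub : ∀ A : F[X], ∀ A' : F[X], σ (aeval B.t' (A.map B.i)) - σ (aeval B.t' (A'.map B.i)) =
      ((A - A').map B.i).eval₂ σ₀ τ := by
    intro A A'
    rw [← map_sub, ← map_sub, ← Polynomial.map_sub, hσa]
  refine par_core B.D' p σ E₁ P hval (fun x hx c g h => hkum x hx 2 (by norm_num) c g h) ϖ h0 h1 hE₁
    ⟨x, hX0⟩ ⟨y, hY0⟩ ⟨z, hZ0⟩ (aeval B.t' ((X - C v') * H)) (aeval B.t' ((e i).map B.i))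
    (aeval B.t' ((e j).map B.i)) (aeval B.t' ((e l).map B.i)) ?_ ?_ ?_ ((2 * m + 1 : ℕ) + 2 * n₁) ?_ ?_
    (2 * n₀) ?_ ?_ ?_
  · intro h
    exact hz0 (congrArg Subtype.val h)
  · apply Subtype.ext
    show x - algebraMap B.k' Ω (aeval B.t' ((e i).map B.i)) =
      algebraMap B.k' Ω (aeval B.t' ((X - C v') * H)) * z ^ 2
    rw [par_ev', hR]
    congr 1
    rw [← aeval_algebraMap_apply, map_mul, map_sub, aeval_X, aeval_C, hv'e, hH, map_prod,
      ← Finset.mul_prod_erase R _ hv, ← B.ht, B.hj]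
    congr 1
    refine Finset.prod_congr rfl fun r hr => ?_
    rw [map_sub, aeval_X, aeval_C, hρ r (Finset.mem_of_mem_erase hr)]
  · apply Subtype.ext
    show y ^ 2 = (x - algebraMap B.k' Ω (aeval B.t' ((e i).map B.i))) *
      (x - algebraMap B.k' Ω (aeval B.t' ((e j).map B.i))) *
      (x - algebraMap B.k' Ω (aeval B.t' ((e l).map B.i)))
    rw [par_ev', par_ev', par_ev', ← hprod (fun a => x - aeval (algebraMap k Ω t) (e a))]
    exact hE
  · exact ⟨m + n₁, by push_cast; ring⟩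
  · rw [hσa, eval₂_mul, eval₂_sub, eval₂_X, eval₂_C, norm_mul, hτ,
      hA₁ τ (lt_of_lt_of_le hτlt (min_le_left _ _)), hn₁, zpow_add₀ h0.ne', zpow_natCast, norm_pow]
  · exact ⟨n₀, by ring⟩
  · rw [hsub, hA₂ τ (lt_of_lt_of_le hτlt ((min_le_right _ _).trans (min_le_left _ _))), ← hn₀]
  · rw [hsub, hA₃ τ (lt_of_lt_of_le hτlt ((min_le_right _ _).trans (min_le_right _ _))), ← hn₀, hγ]

end Pool.Agent.Helper22.TW
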